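import Mathlib
import Pool.Agent.H275R.LocReflK

open Filter Topology
open Pool.Agent.H275R.LocReflK

namespace Pool.Agent.Results.MP_1910d6_an.WeakStarPiBasisIffFDD

variable {𝕜 : Type*} [RCLike 𝕜] {E : Type*} [NormedAddCommGroup E] [NormedSpace 𝕜 E]

/-- A `π`-basis of `E`: finite rank operators `u n` with `u m ∘ u n = u n` for `n ≤ m` (so each
`u n` is a projection, and the ranges are nested) and `u n x → x` for every `x`. -/
def IsPiBasis (u : ℕ → E →L[𝕜] E) : Prop :=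
  (∀ n, FiniteDimensional 𝕜 (LinearMap.range (u n).toLinearMap)) ∧
  (∀ m n, n ≤ m → (u m).comp (u n) = u n) ∧
  ∀ x, Tendsto (fun n => u n x) atTop (𝓝 x)

/-- A weak* `π`-basis of `E*`: finite rank operators `v n` on `E*` with `v m ∘ v n = v n` for
`n ≤ m` and `(v n f) x → f x` for all `f`, `x`.  No weak* continuity is imposed. -/
def IsWeakStarPiBasis (v : ℕ → StrongDual 𝕜 E →L[𝕜] StrongDual 𝕜 E) : Prop :=
  (∀ n, FiniteDimensional 𝕜 (LinearMap.range (v n).toLinearMap)) ∧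
  (∀ m n, n ≤ m → (v m).comp (v n) = v n) ∧
  ∀ f x, Tendsto (fun n => v n f x) atTop (𝓝 (f x))

/-- `E` has a finite dimensional (Schauder) decomposition, stated by its partial sum
projections: commuting nested finite rank projections converging pointwise to the identity. -/
def HasFDD (𝕜 : Type*) [RCLike 𝕜] (E : Type*) [NormedAddCommGroup E] [NormedSpace 𝕜 E] : Prop :=
  ∃ P : ℕ → E →L[𝕜] E,
    (∀ n, FiniteDimensional 𝕜 (LinearMap.range (P n).toLinearMap)) ∧
    (∀ m n, (P m).comp (P n) = P (min m n)) ∧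
    ∀ x, Tendsto (fun n => P n x) atTop (𝓝 x)

lemma inv_half [CompleteSpace E] (t : E →L[𝕜] E) (ht : ‖t‖ ≤ 1 / 2) :
    ∃ D : E →L[𝕜] E, (∀ x, D (x - t x) = x) ∧ (∀ x, D x - t (D x) = x) ∧
      ∀ y, ‖D y‖ ≤ 2 * ‖y‖ := by
  have hlt : ‖t‖ < 1 := by linarith
  let U := Units.oneSub t hlt
  have hU : (U : E →L[𝕜] E) = 1 - t := rfl
  have h2 : ∀ x, (U⁻¹ : (E →L[𝕜] E)ˣ).1 x - t ((U⁻¹ : (E →L[𝕜] E)ˣ).1 x) = x := by
    intro x
    have h := congrArg (fun A : E →L[𝕜] E => A x) U.mul_inv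
    rw [hU] at h
    simpa using h
  refine ⟨((U⁻¹ : (E →L[𝕜] E)ˣ) : E →L[𝕜] E), ?_, h2, ?_⟩
  · intro x
    have h := congrArg (fun A : E →L[𝕜] E => A x) U.inv_mul
    rw [hU] at h
    simpa using h
  · intro y
    have h3 := h2 y
    set z := (U⁻¹ : (E →L[𝕜] E)ˣ).1 y
    have h4 : z = y + t z := by rw [← h3]; abel
    have h5 : ‖z‖ ≤ ‖y‖ + ‖t z‖ := by
      conv_lhs => rw [h4]
      exact norm_add_le _ _
    have h6 : ‖t z‖ ≤ 1 / 2 * ‖z‖ :=
      (t.le_opNorm z).trans (mul_le_mul_of_nonneg_right ht (norm_nonneg _))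
    linarith

lemma fr_tendsto (w : E →L[𝕜] E) {n : ℕ} (f : Fin n → StrongDual 𝕜 E) (y : Fin n → E)
    (hw : ∀ x, w x = ∑ i, f i x • y i) (A : ℕ → E →L[𝕜] E)
    (hA : ∀ i, Tendsto (fun k => A k (y i)) atTop (𝓝 (y i))) :
    ∀ᶠ k in atTop, ‖w - (A k).comp w‖ ≤ 1 / 2 := by
  have h1 : Tendsto (fun k => ∑ i, ‖f i‖ * ‖y i - A k (y i)‖) atTop (𝓝 0) := by
    have h2 : ∀ i, Tendsto (fun k => ‖f i‖ * ‖y i - A k (y i)‖) atTop (𝓝 0) := by
      intro i
      have h3 : Tendsto (fun k => y i - A k (y i)) atTop (𝓝 (y i - y i)) :=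
        tendsto_const_nhds.sub (hA i)
      have h4 := (h3.norm).const_mul ‖f i‖
      simpa using h4
    have := tendsto_finsetSum Finset.univ (fun i _ => h2 i)
    simpa using this
  filter_upwards [h1.eventually_le_const (by norm_num : (0:ℝ) < 1 / 2)] with k hk
  refine ContinuousLinearMap.opNorm_le_bound _ (by norm_num) fun x => ?_
  have h6 : (w - (A k).comp w) x = ∑ i, f i x • (y i - A k (y i)) := by
    have h7 : (w - (A k).comp w) x = w x - A k (w x) := rfl
    rw [h7, hw x, map_sum, ← Finset.sum_sub_distrib]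
    refine Finset.sum_congr rfl fun i _ => ?_
    rw [map_smul, smul_sub]
  rw [h6]
  calc ‖∑ i, f i x • (y i - A k (y i))‖ ≤ ∑ i, ‖f i x • (y i - A k (y i))‖ := norm_sum_le _ _
    _ ≤ ∑ i, (‖f i‖ * ‖x‖) * ‖y i - A k (y i)‖ := by
        refine Finset.sum_le_sum fun i _ => ?_
        rw [norm_smul]
        exact mul_le_mul_of_nonneg_right ((f i).le_opNorm x) (norm_nonneg _)
    _ = (∑ i, ‖f i‖ * ‖y i - A k (y i)‖) * ‖x‖ := by
        rw [Finset.sum_mul]
        exact Finset.sum_congr rfl fun i _ => by ring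
    _ ≤ 1 / 2 * ‖x‖ := mul_le_mul_of_nonneg_right hk (norm_nonneg _)

lemma exS [CompleteSpace E] (u : ℕ → E →L[𝕜] E) (hu : IsPiBasis u) (L : ℝ)
    (hL : ∀ n, ‖u n‖ ≤ L) (v : StrongDual 𝕜 E →L[𝕜] StrongDual 𝕜 E) (M : ℝ) (hM : ‖v‖ ≤ M)
    (F : Submodule 𝕜 (StrongDual 𝕜 E)) [FiniteDimensional 𝕜 F] (hv : ∀ g, v g ∈ F)
    (hv2 : ∀ g ∈ F, v g = g) (m0 : ℕ) :
    ∃ m ≥ m0, ∃ S : E →L[𝕜] E, ‖S‖ ≤ 2 * (L * (4 * M + 1)) ∧ (u m).comp S = S ∧
      (∀ g ∈ F, g.comp S = g) ∧ ∀ g : StrongDual 𝕜 E, g.comp S ∈ F := by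
  obtain ⟨w, hw1, hw2, hw3⟩ := local_refl v F hv F
  have hwF : ∀ g ∈ F, ∀ y, g (w y) = g y := by
    intro g hg y
    have h := hw2 g hg
    rw [hv2 g hg] at h
    exact congrArg (fun k : StrongDual 𝕜 E => k y) h
  have hww : ∀ y, w (w y) = w y := by
    intro y
    rw [SeparatingDual.eq_iff_forall_dual_eq (R := 𝕜)]
    intro g
    exact hwF (g.comp w) (hw1 g) y
  obtain ⟨n, f, x, hfx⟩ := dual_family F
  have hev := fr_tendsto w f (fun i => w (x i)) (hfx w hw1) u (fun i => hu.2.2 (w (x i)))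
  obtain ⟨m, hm1, hm2⟩ := (hev.and (eventually_ge_atTop m0)).exists
  obtain ⟨D, hD1, hD2, hD3⟩ := inv_half _ hm1
  have huu : ∀ y, u m (u m y) = u m y := fun y =>
    congrArg (fun A : E →L[𝕜] E => A y) (hu.2.1 m m le_rfl)
  have hL0 : 0 ≤ L := (norm_nonneg _).trans (hL 0)
  refine ⟨m, hm2, ((u m).comp w).comp D, ?_, ?_, ?_, ?_⟩
  · refine ContinuousLinearMap.opNorm_le_bound _ ?_ fun y => ?_
    · have : 0 ≤ M := (ContinuousLinearMap.opNorm_nonneg v).trans hM
      positivity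
    · have e1 : ‖u m (w (D y))‖ ≤ L * ‖w (D y)‖ :=
        ((u m).le_opNorm _).trans (mul_le_mul_of_nonneg_right (hL m) (norm_nonneg _))
      have e2 : ‖w (D y)‖ ≤ (4 * M + 1) * ‖D y‖ :=
        (w.le_opNorm _).trans (mul_le_mul_of_nonneg_right (by linarith) (norm_nonneg _))
      have e3 := hD3 y
      have hM0 : 0 ≤ M := (ContinuousLinearMap.opNorm_nonneg v).trans hM
      calc ‖(((u m).comp w).comp D) y‖ = ‖u m (w (D y))‖ := rfl
        _ ≤ L * ‖w (D y)‖ := e1
        _ ≤ L * ((4 * M + 1) * (2 * ‖y‖)) := by gcongr; exact e2.trans (by gcongr)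
        _ = _ := by ring
  · ext y
    exact huu _
  · intro g hg
    ext y
    have h1 : w y = w (u m (w (D y))) := by
      have h2 := hD2 y
      have h3 : (w - (u m).comp w) (D y) = w (D y) - u m (w (D y)) := rfl
      rw [h3] at h2
      conv_lhs => rw [← h2]
      rw [map_sub, map_sub, hww]
      abel
    calc g (u m (w (D y))) = g (w (u m (w (D y)))) := (hwF g hg _).symm
      _ = g (w y) := by rw [← h1]
      _ = g y := hwF g hg y
  · intro g
    have h1 : g.comp (((u m).comp w).comp D) = (g.comp (((u m).comp w).comp D)).comp w := by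
      ext y
      have h2 : D (y - w y) = y - w y := by
        have h3 := hD1 (y - w y)
        have h4 : (w - (u m).comp w) (y - w y) = 0 := by
          have h5 : (w - (u m).comp w) (y - w y) = w (y - w y) - u m (w (y - w y)) := rfl
          rw [h5, map_sub, hww, sub_self, map_zero, sub_zero]
        rw [h4, sub_zero] at h3
        exact h3
      have h6 : u m (w (D y)) = u m (w (D (w y))) := by
        have h7 : D y = D (w y) + (y - w y) := by rw [← h2, ← map_add]; congr 1; abel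
        rw [h7, map_add, map_sub, hww, sub_self, add_zero]
      exact congrArg g h6
    rw [h1]
    exact hw1 _

lemma exT [CompleteSpace E] (u : ℕ → E →L[𝕜] E) (hu : IsPiBasis u) (L : ℝ)
    (hL : ∀ n, ‖u n‖ ≤ L) (v : ℕ → StrongDual 𝕜 E →L[𝕜] StrongDual 𝕜 E)
    (hv : IsWeakStarPiBasis v) (M : ℝ) (hM : ∀ n, ‖v n‖ ≤ M) (m n0 : ℕ) :
    ∃ N ≥ n0, ∃ T : E →L[𝕜] E, ‖T‖ ≤ 2 * (L * (4 * M + 1)) ∧ (u m).comp T = T ∧
      T.comp (u m) = u m ∧
      ∀ g : StrongDual 𝕜 E, g.comp T ∈ LinearMap.range (v N).toLinearMap := by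
  classical
  have huu : ∀ y, u m (u m y) = u m y := fun y =>
    congrArg (fun A : E →L[𝕜] E => A y) (hu.2.1 m m le_rfl)
  have hL0 : 0 ≤ L := (norm_nonneg _).trans (hL 0)
  have hM0 : 0 ≤ M := (ContinuousLinearMap.opNorm_nonneg (v 0)).trans (hM 0)
  let R := LinearMap.range (u m).toLinearMap
  have hRfd : FiniteDimensional 𝕜 R := hu.1 m
  let b := Module.finBasis 𝕜 R
  let um' : E →L[𝕜] R := (u m).codRestrict R (fun x => LinearMap.mem_range_self _ x)
  let f : Fin (Module.finrank 𝕜 R) → StrongDual 𝕜 E := fun j =>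
    (LinearMap.toContinuousLinearMap (b.coord j)).comp um'
  have hf : ∀ x, u m x = ∑ j, f j x • (b j : E) := by
    intro x
    have h3 := congrArg (R.subtype) (b.sum_repr (um' x))
    rw [map_sum] at h3
    simp only [map_smul] at h3
    exact h3.symm
  let H : Submodule 𝕜 (StrongDual 𝕜 E) := Submodule.span 𝕜 (Set.range f)
  have hH : FiniteDimensional 𝕜 H := FiniteDimensional.span_of_finite 𝕜 (Set.finite_range f)
  have hch : ∀ n, ∃ w : E →L[𝕜] E,
      (∀ g : StrongDual 𝕜 E, g.comp w ∈ LinearMap.range (v n).toLinearMap) ∧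
      (∀ h ∈ H, h.comp w = v n h) ∧ ‖w‖ ≤ 4 * ‖v n‖ + 1 := by
    intro n
    have := hv.1 n
    exact local_refl (v n) (LinearMap.range (v n).toLinearMap)
      (fun g => LinearMap.mem_range_self _ g) H
  choose w hw1 hw2 hw3 using hch
  have hconv : ∀ x, Tendsto (fun n => u m (w n x)) atTop (𝓝 (u m x)) := by
    intro x
    have h1 : ∀ n, u m (w n x) = ∑ j, (v n (f j)) x • (b j : E) := by
      intro n
      rw [hf]
      refine Finset.sum_congr rfl fun j _ => ?_
      have h2 := congrArg (fun k : StrongDual 𝕜 E => k x)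
        (hw2 n (f j) (Submodule.subset_span ⟨j, rfl⟩))
      have h3 : f j (w n x) = v n (f j) x := h2
      rw [h3]
    rw [hf x]
    simp only [h1]
    exact tendsto_finsetSum _ fun j _ => (hv.2.2 (f j) x).smul_const _
  have hbj : ∀ j, u m (b j : E) = b j := by
    intro j
    obtain ⟨y, hy⟩ := (b j).2
    have hy' : u m y = b j := hy
    rw [← hy', huu]
  have hev := fr_tendsto (u m) f (fun j => (b j : E)) hf (fun k => (u m).comp (w k))
    (fun j => by
      have := hconv (b j : E)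
      rw [hbj] at this
      exact this)
  obtain ⟨N, hN1, hN2⟩ := (hev.and (eventually_ge_atTop n0)).exists
  obtain ⟨D, hD1, hD2, hD3⟩ := inv_half _ hN1
  set t := u m - ((u m).comp (w N)).comp (u m) with ht
  have ht1 : ∀ z, t z = u m z - u m (w N (u m z)) := fun z => rfl
  have ht2 : ∀ z, u m (t z) = t z := by
    intro z; rw [ht1, map_sub, huu, huu]
  have ht3 : ∀ z, t (u m z) = t z := by
    intro z; rw [ht1, ht1, huu]
  have hcomm : ∀ y, u m (D y) = D (u m y) := by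
    intro y
    have h1 := hD2 y
    have h2 : u m y = u m (D y) - t (u m (D y)) := by
      conv_lhs => rw [← h1]
      rw [map_sub, ht2, ht3]
    rw [h2, hD1]
  refine ⟨N, hN2, (D.comp (u m)).comp (w N), ?_, ?_, ?_, ?_⟩
  · refine ContinuousLinearMap.opNorm_le_bound _ (by positivity) fun y => ?_
    have e1 : ‖u m (w N y)‖ ≤ L * ‖w N y‖ :=
      ((u m).le_opNorm _).trans (mul_le_mul_of_nonneg_right (hL m) (norm_nonneg _))
    have e2 : ‖w N y‖ ≤ (4 * M + 1) * ‖y‖ :=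
      ((w N).le_opNorm _).trans (mul_le_mul_of_nonneg_right
        (by have := hw3 N; have := hM N; linarith) (norm_nonneg _))
    calc ‖((D.comp (u m)).comp (w N)) y‖ = ‖D (u m (w N y))‖ := rfl
      _ ≤ 2 * ‖u m (w N y)‖ := hD3 _
      _ ≤ 2 * (L * ((4 * M + 1) * ‖y‖)) := by gcongr; exact e1.trans (by gcongr)
      _ = _ := by ring
  · ext y
    have : u m (D (u m (w N y))) = D (u m (w N y)) := by rw [hcomm, huu]
    exact this
  · ext y
    have h1 : u m (w N (u m y)) = u m y - t (u m y) := by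
      rw [ht1, huu]; abel
    have h2 : D (u m (w N (u m y))) = u m y := by rw [h1, hD1]
    exact h2
  · intro g
    have h1 : g.comp ((D.comp (u m)).comp (w N)) = (g.comp (D.comp (u m))).comp (w N) := rfl
    rw [h1]
    exact hw1 N _

lemma exP [CompleteSpace E] (u : ℕ → E →L[𝕜] E) (hu : IsPiBasis u) (L : ℝ)
    (hL : ∀ n, ‖u n‖ ≤ L) (v : ℕ → StrongDual 𝕜 E →L[𝕜] StrongDual 𝕜 E)
    (hv : IsWeakStarPiBasis v) (M : ℝ) (hM : ∀ n, ‖v n‖ ≤ M) (n m0 : ℕ) :
    ∃ m ≥ m0, ∃ N ≥ n, ∃ P : E →L[𝕜] E,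
      ‖P‖ ≤ 2 * (L * (4 * M + 1)) + 2 * (L * (4 * M + 1)) +
        2 * (L * (4 * M + 1)) * (2 * (L * (4 * M + 1))) ∧
      (∀ y, u m (P y) = P y) ∧ (∀ y, P (u m y) = u m y) ∧
      (∀ g ∈ LinearMap.range (v n).toLinearMap, g.comp P = g) ∧
      ∀ g : StrongDual 𝕜 E, g.comp P ∈ LinearMap.range (v N).toLinearMap := by
  have := hv.1 n
  have hL0 : 0 ≤ L := (norm_nonneg _).trans (hL 0)
  have hM0 : 0 ≤ M := (ContinuousLinearMap.opNorm_nonneg (v 0)).trans (hM 0)
  have hvn : ∀ g ∈ LinearMap.range (v n).toLinearMap, v n g = g := by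
    rintro g ⟨h, rfl⟩
    exact congrArg (fun A : StrongDual 𝕜 E →L[𝕜] StrongDual 𝕜 E => A h) (hv.2.1 n n le_rfl)
  obtain ⟨m, hm, S, hS1, hS2, hS3, hS4⟩ := exS u hu L hL (v n) M (hM n)
    (LinearMap.range (v n).toLinearMap) (fun g => LinearMap.mem_range_self _ g) hvn m0
  obtain ⟨N, hN, T, hT1, hT2, hT3, hT4⟩ := exT u hu L hL v hv M hM m n
  have eS2 : ∀ y, u m (S y) = S y := fun y => congrArg (fun A : E →L[𝕜] E => A y) hS2
  have eT2 : ∀ y, u m (T y) = T y := fun y => congrArg (fun A : E →L[𝕜] E => A y) hT2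
  have eT3 : ∀ y, T (u m y) = u m y := fun y => congrArg (fun A : E →L[𝕜] E => A y) hT3
  have eP : ∀ y, (S + T - S.comp T) y = S y + T y - S (T y) := fun y => rfl
  refine ⟨m, hm, N, hN, S + T - S.comp T, ?_, ?_, ?_, ?_, ?_⟩
  · set B := 2 * (L * (4 * M + 1)) with hB
    calc ‖S + T - S.comp T‖ ≤ ‖S + T‖ + ‖S.comp T‖ := norm_sub_le _ _
      _ ≤ (‖S‖ + ‖T‖) + ‖S‖ * ‖T‖ := add_le_add (norm_add_le _ _) (S.opNorm_comp_le T)
      _ ≤ (B + B) + B * B := by gcongr
  · intro y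
    rw [eP, map_sub, map_add, eS2, eT2, eS2]
  · intro y
    rw [eP, eT3]; abel
  · intro g hg
    have h1 : ∀ y, g (S y) = g y := fun y =>
      congrArg (fun k : StrongDual 𝕜 E => k y) (hS3 g hg)
    ext y
    have h2 : (g.comp (S + T - S.comp T)) y = g (S y + T y - S (T y)) := rfl
    rw [h2, map_sub, map_add, h1, h1]; ring
  · intro g
    have h1 : g.comp (S + T - S.comp T) = g.comp S + (g - g.comp S).comp T := by
      ext y
      have h2 : (g.comp (S + T - S.comp T)) y = g (S y + T y - S (T y)) := rfl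
      have h3 : (g.comp S + (g - g.comp S).comp T) y = g (S y) + (g (T y) - g (S (T y))) := rfl
      rw [h2, h3, map_sub, map_add]; ring
    rw [h1]
    refine Submodule.add_mem _ ?_ (hT4 _)
    obtain ⟨h, hh⟩ := hS4 g
    refine ⟨v n h, ?_⟩
    have h4 : v N (v n h) = v n h :=
      congrArg (fun A : StrongDual 𝕜 E →L[𝕜] StrongDual 𝕜 E => A h) (hv.2.1 N n hN)
    exact h4.trans hh

lemma main_mp [CompleteSpace E] (u : ℕ → E →L[𝕜] E) (hu : IsPiBasis u)
    (v : ℕ → StrongDual 𝕜 E →L[𝕜] StrongDual 𝕜 E) (hv : IsWeakStarPiBasis v) : HasFDD 𝕜 E := by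
  classical
  obtain ⟨L, hL⟩ : ∃ L, ∀ n, ‖u n‖ ≤ L := banach_steinhaus (fun x => by
    obtain ⟨C, hC⟩ := ((hu.2.2 x).norm).bddAbove_range
    exact ⟨C, fun i => hC ⟨i, rfl⟩⟩)
  obtain ⟨M, hM⟩ : ∃ M, ∀ n, ‖v n‖ ≤ M := banach_steinhaus (fun f => by
    obtain ⟨C, hC⟩ := banach_steinhaus (g := fun n => v n f) (fun x => by
      obtain ⟨C, hC⟩ := ((hv.2.2 f x).norm).bddAbove_range
      exact ⟨C, fun i => hC ⟨i, rfl⟩⟩)
    exact ⟨C, hC⟩)
  choose m hm N hN P hP1 hP2 hP3 hP4 hP5 using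
    fun p : ℕ × ℕ => exP u hu L hL v hv M hM p.1 p.2
  let s : ℕ → ℕ × ℕ := fun k => Nat.rec (0, 0) (fun _ p => (N p, m p + 1)) k
  have hs1 : ∀ k, (s (k + 1)).1 = N (s k) := fun k => rfl
  have hs2 : ∀ k, (s (k + 1)).2 = m (s k) + 1 := fun k => rfl
  have hmono : StrictMono (fun k => m (s k)) := by
    refine strictMono_nat_of_lt_succ fun k => ?_
    have := hm (s (k + 1))
    rw [hs2] at this
    exact this
  have hnmono : Monotone (fun k => (s k).1) := by
    refine monotone_nat_of_le_succ fun k => ?_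
    have := hN (s k)
    rw [hs1]
    exact this
  have hrange : ∀ a b, a ≤ b → ∀ g ∈ LinearMap.range (v a).toLinearMap,
      g ∈ LinearMap.range (v b).toLinearMap := by
    rintro a b hab g ⟨h, rfl⟩
    refine ⟨v a h, ?_⟩
    exact congrArg (fun A : StrongDual 𝕜 E →L[𝕜] StrongDual 𝕜 E => A h) (hv.2.1 b a hab)
  have hcle : ∀ a b, b ≤ a → ∀ y, P (s a) (P (s b) y) = P (s b) y := by
    intro a b hba y
    have h1 : u (m (s a)) (P (s b) y) = P (s b) y := by
      have h2 := hP2 (s b) y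
      rw [← h2]
      exact congrArg (fun A : E →L[𝕜] E => A (P (s b) y))
        (hu.2.1 (m (s a)) (m (s b)) (hmono.monotone hba))
    rw [← h1]
    exact hP3 (s a) _
  have hclt : ∀ a b, a < b → ∀ y, P (s a) (P (s b) y) = P (s a) y := by
    intro a b hab y
    rw [SeparatingDual.eq_iff_forall_dual_eq (R := 𝕜)]
    intro g
    have h1 : g.comp (P (s a)) ∈ LinearMap.range (v (s b).1).toLinearMap := by
      refine hrange (N (s a)) (s b).1 ?_ _ (hP5 (s a) g)
      rw [← hs1]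
      exact hnmono hab
    exact congrArg (fun k : StrongDual 𝕜 E => k y) (hP4 (s b) _ h1)
  refine ⟨fun k => P (s k), ?_, ?_, ?_⟩
  · intro k
    have := hu.1 (m (s k))
    refine Submodule.finiteDimensional_of_le
      (S₂ := LinearMap.range (u (m (s k))).toLinearMap) ?_
    rintro _ ⟨y, rfl⟩
    exact ⟨P (s k) y, hP2 (s k) y⟩
  · intro a b
    ext y
    rcases le_or_gt b a with h | h
    · rw [min_eq_right h]
      exact hcle a b h y
    · rw [min_eq_left h.le]
      exact hclt a b h y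
  · intro x
    set C := 2 * (L * (4 * M + 1)) + 2 * (L * (4 * M + 1)) +
        2 * (L * (4 * M + 1)) * (2 * (L * (4 * M + 1))) with hC
    have h1 : Tendsto (fun k => u (m (s k)) x) atTop (𝓝 x) :=
      (hu.2.2 x).comp hmono.tendsto_atTop
    have h2 : Tendsto (fun k => (C + 1) * ‖x - u (m (s k)) x‖) atTop (𝓝 0) := by
      have h3 : Tendsto (fun k => x - u (m (s k)) x) atTop (𝓝 (x - x)) :=
        tendsto_const_nhds.sub h1
      have h4 := (h3.norm).const_mul (C + 1)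
      simpa using h4
    rw [tendsto_iff_norm_sub_tendsto_zero]
    refine squeeze_zero (fun k => norm_nonneg _) (fun k => ?_) h2
    have h5 : P (s k) x - x = P (s k) (x - u (m (s k)) x) - (x - u (m (s k)) x) := by
      rw [map_sub, hP3]; abel
    calc ‖P (s k) x - x‖ = ‖P (s k) (x - u (m (s k)) x) - (x - u (m (s k)) x)‖ := by rw [h5]
      _ ≤ ‖P (s k) (x - u (m (s k)) x)‖ + ‖x - u (m (s k)) x‖ := norm_sub_le _ _
      _ ≤ C * ‖x - u (m (s k)) x‖ + ‖x - u (m (s k)) x‖ :=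
          add_le_add (((P (s k)).le_opNorm _).trans
            (mul_le_mul_of_nonneg_right (hP1 (s k)) (norm_nonneg _))) le_rfl
      _ = (C + 1) * ‖x - u (m (s k)) x‖ := by ring

lemma main_mpr (h : HasFDD 𝕜 E) : (∃ u : ℕ → E →L[𝕜] E, IsPiBasis u) ∧
    ∃ v : ℕ → StrongDual 𝕜 E →L[𝕜] StrongDual 𝕜 E, IsWeakStarPiBasis v := by
  classical
  obtain ⟨P, hP1, hP2, hP3⟩ := h
  refine ⟨⟨P, hP1, fun m n hmn => by rw [hP2, min_eq_right hmn], hP3⟩, ?_⟩
  refine ⟨fun n => (ContinuousLinearMap.compL 𝕜 E E 𝕜).flip (P n), ?_, ?_, ?_⟩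
  · intro n
    let R := LinearMap.range (P n).toLinearMap
    have hRfd : FiniteDimensional 𝕜 R := hP1 n
    let b := Module.finBasis 𝕜 R
    let um' : E →L[𝕜] R := (P n).codRestrict R (fun x => LinearMap.mem_range_self _ x)
    let f : Fin (Module.finrank 𝕜 R) → StrongDual 𝕜 E := fun j =>
      (LinearMap.toContinuousLinearMap (b.coord j)).comp um'
    have hf : ∀ x, P n x = ∑ j, f j x • (b j : E) := by
      intro x
      have h3 := congrArg (R.subtype) (b.sum_repr (um' x))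
      rw [map_sum] at h3
      simp only [map_smul] at h3
      exact h3.symm
    have hH : FiniteDimensional 𝕜 (Submodule.span 𝕜 (Set.range f)) :=
      FiniteDimensional.span_of_finite 𝕜 (Set.finite_range f)
    refine Submodule.finiteDimensional_of_le (S₂ := Submodule.span 𝕜 (Set.range f)) ?_
    rintro _ ⟨g, rfl⟩
    have h1 : ((ContinuousLinearMap.compL 𝕜 E E 𝕜).flip (P n)).toLinearMap g =
        ∑ j, g (b j : E) • f j := by
      ext x
      have h2 : ((ContinuousLinearMap.compL 𝕜 E E 𝕜).flip (P n)).toLinearMap g x =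
        g (P n x) := rfl
      rw [h2, hf, map_sum]
      simp [mul_comm]
    rw [h1]
    exact Submodule.sum_mem _ fun j _ =>
      Submodule.smul_mem _ _ (Submodule.subset_span ⟨j, rfl⟩)
  · intro m n hmn
    ext g x
    have h1 : P n (P m x) = P n x := by
      have := congrArg (fun A : E →L[𝕜] E => A x) (hP2 n m)
      rw [min_eq_left hmn] at this
      exact this
    exact congrArg g h1
  · intro f x
    exact (f.continuous.tendsto x).comp (hP3 x)

/-- A real or complex Banach space `E` has a finite dimensional decomposition if and only if `E` has a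
`π`-basis and `E*` has a weak* `π`-basis. -/
theorem result (𝕜 : Type*) [RCLike 𝕜] (E : Type*) [NormedAddCommGroup E] [NormedSpace 𝕜 E] [CompleteSpace E] :
    ((∃ u : ℕ → E →L[𝕜] E, IsPiBasis u) ∧
      ∃ v : ℕ → StrongDual 𝕜 E →L[𝕜] StrongDual 𝕜 E, IsWeakStarPiBasis v) ↔ HasFDD 𝕜 E :=
  ⟨fun ⟨⟨u, hu⟩, ⟨v, hv⟩⟩ => main_mp u hu v hv, main_mpr⟩

end Pool.Agent.Results.MP_1910d6_an.WeakStarPiBasisIffFDD
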